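import Pool.Agent.V11258.IOE.Round

set_option autoImplicit false

/-! `IOE(2^(2^n))` and `IOE(2^(2^(n^k)))` are Muchnik equivalent. -/

namespace Pool.Agent.Results.MP_2c929a_lc.PolynomialArguments

open Pool.Agent.Helper743 Pool.Agent.H448R3 Pool.Agent.V11258.IOE

/-- `IOE(h)`: the functions that are infinitely often equal to each computable function bounded
by `h`. -/
def IOE (h : ℕ → ℕ) : Set (ℕ → ℕ) :=
  {f | ∀ r : ℕ → ℕ, Computable r → (∀ n, r n < h n) → ∀ N, ∃ n, N ≤ n ∧ f n = r n}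

/-- Muchnik reducibility of mass problems: each member of `C` computes a member of `B`. -/
def MuchnikLE (B C : Set (ℕ → ℕ)) : Prop :=
  ∀ g ∈ C, ∃ f ∈ B, TuringReducible (fun n => Part.some (f n)) (fun n => Part.some (g n))

/-- Muchnik equivalence. -/
def MuchnikEquiv (B C : Set (ℕ → ℕ)) : Prop := MuchnikLE B C ∧ MuchnikLE C B

theorem MuchnikLE.trans {A B C : Set (ℕ → ℕ)} (h1 : MuchnikLE A B) (h2 : MuchnikLE B C) :
    MuchnikLE A C := by
  intro g hg
  obtain ⟨f, hf, hfg⟩ := h2 g hg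
  obtain ⟨e, he, hef⟩ := h1 f hf
  exact ⟨e, he, hef.trans hfg⟩

/-- A bound that is eventually smaller gives an easier problem. -/
theorem le_of_eventually_le {G h : ℕ → ℕ} (hpos : ∀ n, 0 < h n) {N : ℕ}
    (hle : ∀ n, N ≤ n → G n ≤ h n) : MuchnikLE (IOE G) (IOE h) := by
  intro f hf
  refine ⟨f, ?_, TuringReducible.refl _⟩
  intro r hr hrG M
  have hc : Computable fun n => if n < N then 0 else r n :=
    (Computable.cond (clt Computable.id (Computable.const N)) (Computable.const 0) hr).of_eq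
      (fun n => by by_cases hn : n < N <;> simp [hn])
  obtain ⟨n, hn, hfn⟩ := hf _ hc (by
    intro n
    by_cases hn : n < N
    · simp only [hn, if_true]; exact hpos n
    · simp only [hn, if_false]; exact lt_of_lt_of_le (hrG n) (hle n (by omega))) (max M N)
  refine ⟨n, le_trans (le_max_left _ _) hn, ?_⟩
  have : ¬ n < N := not_lt.2 (le_trans (le_max_right _ _) hn)
  rw [hfn, if_neg this]

theorem exists_of_not {G g : ℕ → ℕ}
    (h : ¬ ∀ f, RecT {(g : ℕ →. ℕ)} f → f ∉ Pool.Agent.V11258.IOE.IOE G) :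
    ∃ f ∈ IOE G, TuringReducible (fun n => Part.some (f n)) (fun n => Part.some (g n)) := by
  push Not at h
  obtain ⟨f, h1, h2⟩ := h
  exact ⟨f, h2, TR_iff.1 h1⟩

theorem cnt_le (p : ℕ → ℕ) (a k : ℕ) : cnt p a k ≤ k - a := by
  rw [cnt_card']
  refine le_trans (Finset.card_filter_le _ _) ?_
  simp

/-- the exponents -/
theorem arith {k c j : ℕ} (hk : 1 ≤ k) (hc : 1 ≤ c) (hj : 2 * c + 3 ≤ j) :
    4 ^ (j * k) / (2 * c) + (j + 2) ≤ 4 ^ (j * k) / c := by
  have h1 : j < 2 ^ j := Nat.lt_two_pow_self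
  have h2 : j + 2 ≤ 2 ^ j := by
    obtain ⟨d, rfl⟩ : ∃ d, j = d + 1 := ⟨j - 1, by omega⟩
    have := Nat.lt_two_pow_self (n := d)
    rw [pow_succ]; omega
  have h3 : 4 ^ j ≤ 4 ^ (j * k) := Nat.pow_le_pow_right (by norm_num) (Nat.le_mul_of_pos_right j hk)
  have h4 : (4 : ℕ) ^ j = 2 ^ j * 2 ^ j := by
    rw [← mul_pow]; norm_num
  have h5 : 2 * c * (j + 2) ≤ 4 ^ (j * k) := by
    refine le_trans ?_ h3
    rw [h4]
    exact Nat.mul_le_mul (by omega) h2
  have h6 : j + 2 ≤ 4 ^ (j * k) / (2 * c) := by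
    rw [Nat.le_div_iff_mul_le (by omega), Nat.mul_comm]
    exact h5
  have h7 : 2 * (4 ^ (j * k) / (2 * c)) ≤ 4 ^ (j * k) / c := by
    rw [Nat.le_div_iff_mul_le (by omega)]
    have := Nat.div_mul_le_self (4 ^ (j * k)) (2 * c)
    calc 2 * (4 ^ (j * k) / (2 * c)) * c = 4 ^ (j * k) / (2 * c) * (2 * c) := by ring
      _ ≤ _ := this
  omega

/-- One step: the exponent is squared. -/
theorem step {k c : ℕ} (hk : 1 ≤ k) (hc : 1 ≤ c) :
    MuchnikLE (IOE fun n => 2 ^ 2 ^ (n ^ (2 * k) / (2 * c * 16 ^ k)))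
      (IOE fun n => 2 ^ 2 ^ (n ^ k / c)) := by
  intro g hg
  refine exists_of_not ?_
  intro hno
  let e : ℕ → ℕ := fun j => 4 ^ (j * k) / c
  let B : ℕ → ℕ := fun j => 2 ^ 2 ^ (e j - (j + 2))
  have he : Computable e := cdiv (pow4_comp.comp (cmul Computable.id (Computable.const k)))
    (Computable.const c)
  have hB : Computable B := pow2_comp.comp (pow2_comp.comp (csub he
    (cadd Computable.id (Computable.const 2))))
  have hlo : Computable fun j : ℕ => 4 ^ j := pow4_comp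
  have hhi : Computable fun j : ℕ => 4 ^ (j + 1) :=
    pow4_comp.comp (cadd Computable.id (Computable.const 1))
  have hgr' : ∀ j x, 4 ^ j ≤ x → x < 4 ^ (j + 1) → Nat.log 4 x = j := by
    intro j x h1 h2
    have : 0 < 4 ^ j := by positivity
    exact (Nat.log_eq_iff (Or.inr ⟨by norm_num, by omega⟩)).2 ⟨h1, h2⟩
  have hG : ∀ j, 2 * c + 3 ≤ j → ∀ i < 2 ^ (j + 1),
      2 ^ 2 ^ ((2 ^ (j + 1) + i) ^ (2 * k) / (2 * c * 16 ^ k)) ≤ B j := by
    intro j hj i hi
    refine Nat.pow_le_pow_right (by norm_num) (Nat.pow_le_pow_right (by norm_num) ?_)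
    have h1 : 2 ^ (j + 1) + i ≤ 2 ^ (j + 2) := by
      have : 2 ^ (j + 2) = 2 ^ (j + 1) + 2 ^ (j + 1) := by ring
      omega
    have h2 : (2 ^ (j + 1) + i) ^ (2 * k) ≤ 4 ^ (j * k) * 16 ^ k := by
      refine le_trans (Nat.pow_le_pow_left h1 _) (le_of_eq ?_)
      have h16 : (16 : ℕ) ^ k = 2 ^ (4 * k) := by rw [pow_mul]; norm_num
      have h4 : (4 : ℕ) ^ (j * k) = 2 ^ (2 * (j * k)) := by rw [pow_mul 2]; norm_num
      rw [h16, h4, ← pow_add, ← pow_mul]
      congr 1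
      ring
    have h3 : (2 ^ (j + 1) + i) ^ (2 * k) / (2 * c * 16 ^ k) ≤ 4 ^ (j * k) / (2 * c) := by
      refine le_trans (Nat.div_le_div_right h2) (le_of_eq ?_)
      rw [Nat.mul_div_mul_right _ _ (by positivity)]
    have h4 := arith hk hc hj
    have h5 : e j = 4 ^ (j * k) / c := rfl
    omega
  have hcnt : ∀ j, 2 * c + 3 ≤ j → cnt (v2 fun m => Nat.pair (g m) 1) (4 ^ j) (4 ^ (j + 1)) <
      (2 ^ (j + 1) + 1) ^ (1 + 1) := by
    intro j _
    refine lt_of_le_of_lt (cnt_le _ _ _) ?_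
    have h4 : (4 : ℕ) ^ j = 2 ^ j * 2 ^ j := by rw [← mul_pow]; norm_num
    have h5 : (4 : ℕ) ^ (j + 1) = 4 * (2 ^ j * 2 ^ j) := by rw [pow_succ, h4]; ring
    have h6 : (2 ^ (j + 1) + 1) ^ (1 + 1) = 4 * (2 ^ j * 2 ^ j) + 4 * 2 ^ j + 1 := by
      rw [pow_succ 2 j]; ring
    rw [h5, h6]
    omega
  have hW : RecT {(g : ℕ →. ℕ)} (fun m => Nat.pair (g m) 1) :=
    RecT.pair (TR.refl g) (Computable.recT (Computable.const 1))
  obtain ⟨q, hq, j1, hj1⟩ := rounds (lo := fun j => 4 ^ j) (hi := fun j => 4 ^ (j + 1))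
    (gr := Nat.log 4) (B := B) (G := fun n => 2 ^ 2 ^ (n ^ (2 * k) / (2 * c * 16 ^ k)))
    hB hlo hhi log4_comp hgr' (j0 := 2 * c + 3) hG hno 1 hW hcnt
  let J : ℕ := max (2 * c + 3) j1
  have hr : Computable fun m => if Nat.log 4 m < J then 0 else q (Nat.log 4 m) :=
    (Computable.cond (clt log4_comp (Computable.const J)) (Computable.const 0)
      (hq.comp log4_comp)).of_eq (fun m => by by_cases hn : Nat.log 4 m < J <;> simp [hn])
  obtain ⟨m, hm, hgm⟩ := hg _ hr (by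
    intro m
    by_cases hm : Nat.log 4 m < J
    · simp only [hm, if_true]; positivity
    · simp only [hm, if_false]
      have hJ : J ≤ Nat.log 4 m := not_lt.1 hm
      have h1 : 2 * c + 3 ≤ Nat.log 4 m := le_trans (le_max_left _ _) hJ
      have h2 : j1 ≤ Nat.log 4 m := le_trans (le_max_right _ _) hJ
      refine lt_of_lt_of_le (hj1 _ h2).1 ?_
      have hm0 : m ≠ 0 := by
        rintro rfl
        rw [Nat.log_zero_right] at h1
        omega
      have h3 : 4 ^ Nat.log 4 m ≤ m := Nat.pow_log_le_self 4 hm0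
      have h4 := arith hk hc h1
      have h5 : (B (Nat.log 4 m) ^ 2 ^ (Nat.log 4 m + 1)) ^ (1 + 1) = 2 ^ 2 ^ e (Nat.log 4 m) := by
        have h7 : e (Nat.log 4 m) = 4 ^ (Nat.log 4 m * k) / c := rfl
        have h6 : e (Nat.log 4 m) = e (Nat.log 4 m) - (Nat.log 4 m + 2) + (Nat.log 4 m + 1) + 1 := by
          have h8 : Nat.log 4 m + 2 ≤ e (Nat.log 4 m) := le_trans (Nat.le_add_left _ _) h4
          generalize e (Nat.log 4 m) = x at h8
          omega
        show ((2 ^ 2 ^ (e (Nat.log 4 m) - (Nat.log 4 m + 2))) ^ 2 ^ (Nat.log 4 m + 1)) ^ (1 + 1) = _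
        rw [← pow_mul, ← pow_mul]
        congr 1
        conv_rhs => rw [h6]
        rw [pow_succ 2 (e (Nat.log 4 m) - (Nat.log 4 m + 2) + (Nat.log 4 m + 1)),
          pow_add 2 (e (Nat.log 4 m) - (Nat.log 4 m + 2)) (Nat.log 4 m + 1), mul_assoc]
      rw [h5]
      refine Nat.pow_le_pow_right (by norm_num) (Nat.pow_le_pow_right (by norm_num) ?_)
      refine Nat.div_le_div_right ?_
      rw [pow_mul]
      exact Nat.pow_le_pow_left h3 k) (4 ^ J)
  have hpos : 0 < 4 ^ J := by positivity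
  have hlog : J ≤ Nat.log 4 m := Nat.le_log_of_pow_le (by norm_num) hm
  have h1 : ¬ Nat.log 4 m < J := not_lt.2 hlog
  simp only [h1, if_false] at hgm
  have h2 := (hj1 (Nat.log 4 m) (le_trans (le_max_right _ _) hlog)).2 m
    (Nat.pow_log_le_self 4 (by omega)) (Nat.lt_pow_succ_log_self (by norm_num) m)
  refine h2 ?_ ?_
  · simp [v2]
  · simp only [v1, Nat.unpair_pair]
    exact hgm

/-- all steps -/
theorem steps (t : ℕ) : ∃ c, 1 ≤ c ∧
    MuchnikLE (IOE fun n => 2 ^ 2 ^ (n ^ (2 ^ t) / c)) (IOE fun n => 2 ^ 2 ^ n) := by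
  induction t with
  | zero =>
    refine ⟨1, le_refl _, ?_⟩
    have : (fun n : ℕ => 2 ^ 2 ^ (n ^ (2 ^ 0) / 1)) = fun n => 2 ^ 2 ^ n := by
      funext n
      rw [pow_zero, pow_one, Nat.div_one]
    rw [this]
    intro g hg
    exact ⟨g, hg, TuringReducible.refl _⟩
  | succ t ih =>
    obtain ⟨c, hc, h⟩ := ih
    refine ⟨2 * c * 16 ^ (2 ^ t), ?_, ?_⟩
    · exact Nat.mul_pos (by omega) (by positivity)
    · have h2 := step (k := 2 ^ t) (Nat.one_le_two_pow) hc
      have h3 : 2 * 2 ^ t = 2 ^ (t + 1) := by rw [pow_succ]; ring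
      rw [h3] at h2
      exact h2.trans h

theorem main (k : ℕ) (hk : 1 ≤ k) :
    MuchnikEquiv (IOE fun n => 2 ^ 2 ^ n) (IOE fun n => 2 ^ 2 ^ (n ^ k)) := by
  constructor
  · refine le_of_eventually_le (N := 0) (fun n => by positivity) ?_
    intro n _
    refine Nat.pow_le_pow_right (by norm_num) (Nat.pow_le_pow_right (by norm_num) ?_)
    exact Nat.le_self_pow (by omega) n
  · obtain ⟨c, hc, h⟩ := steps k
    refine MuchnikLE.trans ?_ h
    refine le_of_eventually_le (N := c) (fun n => by positivity) ?_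
    intro n hn
    refine Nat.pow_le_pow_right (by norm_num) (Nat.pow_le_pow_right (by norm_num) ?_)
    rw [Nat.le_div_iff_mul_le (by omega)]
    have h1 : k + 1 ≤ 2 ^ k := Nat.lt_two_pow_self
    calc n ^ k * c ≤ n ^ k * n := Nat.mul_le_mul_left _ hn
      _ = n ^ (k + 1) := (pow_succ n k).symm
      _ ≤ n ^ (2 ^ k) := Nat.pow_le_pow_right (by omega) h1

/-- **Main theorem.** For every `k ≥ 2` the function `n ↦ 2^(2^(n^k))` is computable, eventually
exceeds `2^(a^n)` for each fixed `a`, and `IOE` of it is Muchnik equivalent to `IOE(2^(2^n))`. -/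
theorem result (k : ℕ) (hk : 2 ≤ k) :
    Computable (fun n : ℕ => 2 ^ 2 ^ (n ^ k)) ∧
    (∀ a : ℕ, ∀ᶠ n in Filter.atTop, 2 ^ (a ^ n) < 2 ^ 2 ^ (n ^ k)) ∧
      MuchnikEquiv (IOE fun n => 2 ^ 2 ^ n) (IOE fun n => 2 ^ 2 ^ (n ^ k)) := by
  refine ⟨?_, ?_, main k (by omega)⟩
  · exact pow2_comp.comp (pow2_comp.comp (cpow Computable.id (Computable.const k)))
  · intro a
    filter_upwards [Filter.eventually_ge_atTop (a + 1)] with n hn
    refine Nat.pow_lt_pow_right (by norm_num) ?_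
    have h1 : a < 2 ^ n := lt_trans (by omega) (Nat.lt_two_pow_self (n := n))
    calc a ^ n < (2 ^ n) ^ n := Nat.pow_lt_pow_left h1 (by omega)
      _ = 2 ^ (n ^ 2) := by rw [← pow_mul, sq]
      _ ≤ 2 ^ (n ^ k) := Nat.pow_le_pow_right (by norm_num) (Nat.pow_le_pow_right (by omega) hk)

end Pool.Agent.Results.MP_2c929a_lc.PolynomialArguments
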